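import Mathlib

/-!
# De Palma–Trevisan Wasserstein distance: general and separable couplings
-/

open Matrix
open scoped ComplexOrder Kronecker MatrixOrder

namespace Pool.Agent.Q206.QW

variable {n : Type} [Fintype n] [DecidableEq n] {N : ℕ}

/-- Density matrices. -/
def IsState (ρ : Matrix n n ℂ) : Prop := ρ.PosSemidef ∧ ρ.trace = 1

/-- The reduced matrix on the first factor. -/
def red1 (τ : Matrix (n × n) (n × n) ℂ) : Matrix n n ℂ := fun i j => ∑ k, τ (i, k) (j, k)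

/-- The reduced matrix on the second factor. -/
def red2 (τ : Matrix (n × n) (n × n) ℂ) : Matrix n n ℂ := fun i j => ∑ k, τ (k, i) (k, j)

/-- `Hᵀ ⊗ 1 - 1 ⊗ H` -/
def diffOp (A : Matrix n n ℂ) : Matrix (n × n) (n × n) ℂ := Aᵀ ⊗ₖ 1 - 1 ⊗ₖ A

/-- The cost `(1/2) ∑ₘ tr[τ (Hₘᵀ ⊗ 1 - 1 ⊗ Hₘ)²]` of a state `τ` on `ℂᵈ ⊗ ℂᵈ`. -/
noncomputable def cost (H : Fin N → Matrix n n ℂ) (τ : Matrix (n × n) (n × n) ℂ) : ℝ :=
  1 / 2 * ∑ m, ((τ * (diffOp (H m) * diffOp (H m))).trace).re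

/-- The De Palma–Trevisan cost `W(ρ, σ)`: the infimum over the couplings, states on `ℂᵈ ⊗ ℂᵈ`
with reduced states `ρᵀ` and `σ`. -/
noncomputable def W (H : Fin N → Matrix n n ℂ) (ρ σ : Matrix n n ℂ) : ℝ :=
  sInf {c | ∃ τ : Matrix (n × n) (n × n) ℂ, IsState τ ∧ red1 τ = ρᵀ ∧ red2 τ = σ ∧ c = cost H τ}

/-- `|ψ⟩⟨ψ|` -/
def proj (ψ : n → ℂ) : Matrix n n ℂ := vecMulVec ψ (star ψ)

/-- The separable cost: the infimum over the finite families of weights `p k > 0` and pairs of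
unit vectors that decompose `ρ` and `σ`. -/
noncomputable def Wsep (H : Fin N → Matrix n n ℂ) (ρ σ : Matrix n n ℂ) : ℝ :=
  sInf {c | ∃ (K : ℕ) (p : Fin K → ℝ) (ψ φ : Fin K → n → ℂ),
    (∀ k, 0 < p k) ∧ ∑ k, p k = 1 ∧ (∀ k, star (ψ k) ⬝ᵥ ψ k = 1) ∧ (∀ k, star (φ k) ⬝ᵥ φ k = 1) ∧
    ∑ k, (p k : ℂ) • proj (ψ k) = ρ ∧ ∑ k, (p k : ℂ) • proj (φ k) = σ ∧
    c = ∑ k, p k * W H (proj (ψ k)) (proj (φ k))}

/-- The modified cost. -/
noncomputable def Wmod (H : Fin N → Matrix n n ℂ) (ρ σ : Matrix n n ℂ) : ℝ :=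
  W H ρ σ - 1 / 2 * (W H ρ ρ + W H σ σ)

/-- The modified separable cost. -/
noncomputable def Wsepmod (H : Fin N → Matrix n n ℂ) (ρ σ : Matrix n n ℂ) : ℝ :=
  Wsep H ρ σ - 1 / 2 * (Wsep H ρ ρ + Wsep H σ σ)

/-! ### Basic lemmas -/

lemma tr_kron_one (τ : Matrix (n × n) (n × n) ℂ) (A : Matrix n n ℂ) :
    (τ * (A ⊗ₖ 1)).trace = (red1 τ * A).trace := by
  simp only [Matrix.trace, Matrix.diag, Matrix.mul_apply, Fintype.sum_prod_type,
    Matrix.kroneckerMap_apply, Matrix.one_apply, red1, mul_ite, mul_one, mul_zero,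
    Finset.sum_ite_eq', Finset.mem_univ, if_true, Finset.sum_mul]
  refine Finset.sum_congr rfl fun i _ => ?_
  rw [Finset.sum_comm]

lemma tr_one_kron (τ : Matrix (n × n) (n × n) ℂ) (A : Matrix n n ℂ) :
    (τ * (1 ⊗ₖ A)).trace = (red2 τ * A).trace := by
  have h : ∀ i k : n, ∑ x : n, ∑ y : n, τ (i, k) (x, y) * ((if x = i then 1 else 0) * A y k) =
      ∑ y : n, τ (i, k) (i, y) * A y k := by
    intro i k
    rw [Finset.sum_eq_single i]
    · simp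
    · intro b _ hb; simp [hb]
    · simp
  simp only [Matrix.trace, Matrix.diag, Matrix.mul_apply, Fintype.sum_prod_type,
    Matrix.kroneckerMap_apply, Matrix.one_apply, red2, Finset.sum_mul, h]
  rw [Finset.sum_comm]
  refine Finset.sum_congr rfl fun i _ => ?_
  rw [Finset.sum_comm]

lemma diffOp_sq (A : Matrix n n ℂ) : diffOp A * diffOp A =
    (Aᵀ * Aᵀ) ⊗ₖ 1 + 1 ⊗ₖ (A * A) - (2 : ℂ) • (Aᵀ ⊗ₖ A) := by
  unfold diffOp
  rw [sub_mul, mul_sub, mul_sub, ← Matrix.mul_kronecker_mul, ← Matrix.mul_kronecker_mul,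
    ← Matrix.mul_kronecker_mul, ← Matrix.mul_kronecker_mul]
  simp only [one_mul, mul_one]
  module

omit [DecidableEq n] in
lemma trace_red1 (τ : Matrix (n × n) (n × n) ℂ) : (red1 τ).trace = τ.trace := by
  simp [Matrix.trace, red1, Fintype.sum_prod_type]

omit [DecidableEq n] in
lemma trace_red2 (τ : Matrix (n × n) (n × n) ℂ) : (red2 τ).trace = τ.trace := by
  simp only [Matrix.trace, Matrix.diag, red2, Fintype.sum_prod_type]
  rw [Finset.sum_comm]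

omit [Fintype n] in
lemma diffOp_herm {A : Matrix n n ℂ} (hA : A.IsHermitian) : (diffOp A)ᴴ = diffOp A := by
  unfold diffOp
  rw [Matrix.conjTranspose_sub, Matrix.conjTranspose_kronecker, Matrix.conjTranspose_kronecker,
    hA.transpose.eq, hA.eq, Matrix.conjTranspose_one]

lemma cost_nonneg {H : Fin N → Matrix n n ℂ} (hH : ∀ m, (H m).IsHermitian)
    {τ : Matrix (n × n) (n × n) ℂ} (hτ : τ.PosSemidef) : 0 ≤ cost H τ := by
  refine mul_nonneg (by norm_num) (Finset.sum_nonneg fun m _ => ?_)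
  have h1 := (hτ.mul_mul_conjTranspose_same (diffOp (H m))).trace_nonneg
  rw [diffOp_herm (hH m), Matrix.mul_assoc, Matrix.trace_mul_comm, Matrix.mul_assoc] at h1
  exact (Complex.le_def.1 h1).1

lemma W_nonneg {H : Fin N → Matrix n n ℂ} (hH : ∀ m, (H m).IsHermitian) (ρ σ : Matrix n n ℂ) :
    0 ≤ W H ρ σ := by
  refine Real.sInf_nonneg ?_
  rintro c ⟨τ, hτ, -, -, rfl⟩
  exact cost_nonneg hH hτ.1

lemma W_le {H : Fin N → Matrix n n ℂ} (hH : ∀ m, (H m).IsHermitian) {ρ σ : Matrix n n ℂ}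
    {τ : Matrix (n × n) (n × n) ℂ} (hτ : IsState τ) (h1 : red1 τ = ρᵀ) (h2 : red2 τ = σ) :
    W H ρ σ ≤ cost H τ :=
  csInf_le ⟨0, by rintro c ⟨τ, hτ, -, -, rfl⟩; exact cost_nonneg hH hτ.1⟩ ⟨τ, hτ, h1, h2, rfl⟩

lemma Wsep_le {H : Fin N → Matrix n n ℂ} (hH : ∀ m, (H m).IsHermitian) {ρ σ : Matrix n n ℂ}
    {K : ℕ} (p : Fin K → ℝ) (ψ φ : Fin K → n → ℂ) (hp : ∀ k, 0 < p k) (hs : ∑ k, p k = 1)
    (hψ : ∀ k, star (ψ k) ⬝ᵥ ψ k = 1) (hφ : ∀ k, star (φ k) ⬝ᵥ φ k = 1)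
    (h1 : ∑ k, (p k : ℂ) • proj (ψ k) = ρ) (h2 : ∑ k, (p k : ℂ) • proj (φ k) = σ) :
    Wsep H ρ σ ≤ ∑ k, p k * W H (proj (ψ k)) (proj (φ k)) := by
  refine csInf_le ⟨0, ?_⟩ ⟨K, p, ψ, φ, hp, hs, hψ, hφ, h1, h2, rfl⟩
  rintro c ⟨K, p, ψ, φ, hp, -, -, -, -, -, rfl⟩
  exact Finset.sum_nonneg fun k _ => mul_nonneg (hp k).le (W_nonneg hH _ _)

omit [DecidableEq n] in
lemma proj_psd (ψ : n → ℂ) : (proj ψ).PosSemidef := Matrix.posSemidef_vecMulVec_self_star _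

omit [DecidableEq n] in
lemma proj_trace {ψ : n → ℂ} (h : star ψ ⬝ᵥ ψ = 1) : (proj ψ).trace = 1 := by
  unfold proj
  rw [Matrix.trace_vecMulVec, dotProduct_comm, h]

omit [DecidableEq n] in
lemma proj_mul_self {ψ : n → ℂ} (h : star ψ ⬝ᵥ ψ = 1) : proj ψ * proj ψ = proj ψ := by
  unfold proj
  rw [Matrix.vecMulVec_mul_vecMulVec, h]
  simp

omit [DecidableEq n] in
lemma proj_mul_mul (ψ : n → ℂ) (B : Matrix n n ℂ) :
    proj ψ * B * proj ψ = (star ψ ⬝ᵥ B *ᵥ ψ) • proj ψ := by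
  unfold proj
  rw [Matrix.vecMulVec_mul, Matrix.vecMulVec_mul_vecMulVec, ← Matrix.dotProduct_mulVec]
  ext i j
  simp [Matrix.vecMulVec_apply]
  ring

omit [DecidableEq n] in
lemma red1_kron (A B : Matrix n n ℂ) : red1 (A ⊗ₖ B) = B.trace • A := by
  ext i j
  simp only [red1, Matrix.kroneckerMap_apply, Matrix.smul_apply, Matrix.trace, Matrix.diag,
    smul_eq_mul, Finset.sum_mul]
  exact Finset.sum_congr rfl fun k _ => mul_comm _ _

omit [DecidableEq n] in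
lemma red2_kron (A B : Matrix n n ℂ) : red2 (A ⊗ₖ B) = A.trace • B := by
  ext i j
  simp only [red2, Matrix.kroneckerMap_apply, Matrix.smul_apply, Matrix.trace, Matrix.diag,
    smul_eq_mul, Finset.sum_mul]

omit [DecidableEq n] in
lemma prod_state {ψ φ : n → ℂ} (hψ : star ψ ⬝ᵥ ψ = 1) (hφ : star φ ⬝ᵥ φ = 1) :
    IsState ((proj ψ)ᵀ ⊗ₖ proj φ) ∧ red1 ((proj ψ)ᵀ ⊗ₖ proj φ) = (proj ψ)ᵀ ∧
      red2 ((proj ψ)ᵀ ⊗ₖ proj φ) = proj φ := by
  refine ⟨⟨(proj_psd ψ).transpose.kronecker (proj_psd φ), ?_⟩, ?_, ?_⟩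
  · rw [Matrix.trace_kronecker, Matrix.trace_transpose, proj_trace hψ, proj_trace hφ, one_mul]
  · rw [red1_kron, proj_trace hφ, one_smul]
  · rw [red2_kron, Matrix.trace_transpose, proj_trace hψ, one_smul]

/-- A coupling with a pure second marginal is a product. -/
lemma pure_coupling {τ : Matrix (n × n) (n × n) ℂ} (hτ : τ.PosSemidef) {φ : n → ℂ}
    (hφ : star φ ⬝ᵥ φ = 1) (h2 : red2 τ = proj φ) (A B : Matrix n n ℂ) :
    (τ * (A ⊗ₖ B)).trace = (star φ ⬝ᵥ B *ᵥ φ) * (red1 τ * A).trace := by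
  set P := proj φ with hP
  have hPP : P * P = P := proj_mul_self hφ
  have hPh : Pᴴ = P := (proj_psd φ).1.eq
  set E : Matrix (n × n) (n × n) ℂ := 1 ⊗ₖ (1 - P) with hE
  have hEh : Eᴴ = E := by
    rw [hE, Matrix.conjTranspose_kronecker, Matrix.conjTranspose_sub, hPh,
      Matrix.conjTranspose_one]
  have hEE : E * E = E := by
    rw [hE, ← Matrix.mul_kronecker_mul, one_mul]
    congr 1
    rw [sub_mul, mul_sub, mul_sub, one_mul, mul_one, one_mul, hPP]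
    abel
  have h3 : (Eᴴ * τ * E).trace = 0 := by
    rw [hEh, Matrix.mul_assoc, Matrix.trace_mul_comm, Matrix.mul_assoc, hEE, hE, tr_one_kron, h2,
      mul_sub, mul_one, hPP, sub_self, Matrix.trace_zero]
  have h4 : Eᴴ * τ * E = 0 :=
    (hτ.conjTranspose_mul_mul_same E).trace_eq_zero_iff.1 h3
  obtain ⟨S, hS⟩ := CStarAlgebra.nonneg_iff_eq_star_mul_self.mp hτ.nonneg
  rw [Matrix.star_eq_conjTranspose] at hS
  have h5 : S * E = 0 := by
    rw [← Matrix.conjTranspose_mul_self_eq_zero, Matrix.conjTranspose_mul, ← h4, hS]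
    simp only [Matrix.mul_assoc]
  have h6 : τ * E = 0 := by rw [hS, Matrix.mul_assoc, h5, Matrix.mul_zero]
  have h7 : τ * (1 ⊗ₖ P) = τ := by
    have : (1 : Matrix n n ℂ) ⊗ₖ P = 1 - E := by
      rw [eq_sub_iff_add_eq, hE, ← Matrix.kronecker_add, add_sub_cancel, Matrix.one_kronecker_one]
    rw [this, mul_sub, h6, mul_one, sub_zero]
  have h8 : (1 ⊗ₖ P) * τ = τ := by
    have := congrArg Matrix.conjTranspose h7
    rw [Matrix.conjTranspose_mul, hτ.1.eq, Matrix.conjTranspose_kronecker, hPh,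
      Matrix.conjTranspose_one] at this
    exact this
  calc (τ * (A ⊗ₖ B)).trace = ((1 ⊗ₖ P) * τ * (1 ⊗ₖ P) * (A ⊗ₖ B)).trace := by rw [h8, h7]
    _ = (τ * ((1 ⊗ₖ P) * (A ⊗ₖ B) * (1 ⊗ₖ P))).trace := by
        rw [Matrix.mul_assoc, Matrix.mul_assoc, Matrix.trace_mul_comm]
        simp only [Matrix.mul_assoc]
    _ = (τ * (A ⊗ₖ (P * B * P))).trace := by
        rw [← Matrix.mul_kronecker_mul, ← Matrix.mul_kronecker_mul, one_mul, mul_one]
    _ = (star φ ⬝ᵥ B *ᵥ φ) * (τ * (A ⊗ₖ P)).trace := by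
        rw [hP, proj_mul_mul, Matrix.kronecker_smul, Matrix.mul_smul, Matrix.trace_smul,
          smul_eq_mul]
    _ = (star φ ⬝ᵥ B *ᵥ φ) * (τ * (A ⊗ₖ 1)).trace := by
        congr 1
        have : A ⊗ₖ P = (1 ⊗ₖ P) * (A ⊗ₖ (1 : Matrix n n ℂ)) := by
          rw [← Matrix.mul_kronecker_mul, one_mul, mul_one]
        rw [this, ← Matrix.mul_assoc, h7]
    _ = _ := by rw [tr_kron_one]

end Pool.Agent.Q206.QW
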