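import Pool.Agent.Q206.QW.Defs

/-!
# The example
-/

open Matrix
open scoped ComplexOrder Kronecker MatrixOrder

namespace Pool.Agent.Q206.QW

/-- `H₀ = aZ ⊕ X`, `H₁ = X ⊕ aZ`. -/
noncomputable def HH (a : ℝ) : Fin 2 → Matrix (Fin 4) (Fin 4) ℂ :=
  ![!![(a : ℂ), 0, 0, 0; 0, -(a : ℂ), 0, 0; 0, 0, 0, 1; 0, 0, 1, 0],
    !![0, 1, 0, 0; 1, 0, 0, 0; 0, 0, (a : ℂ), 0; 0, 0, 0, -(a : ℂ)]]

/-- `ρ = (1/2)(|0⟩⟨0| + |1⟩⟨1|)` -/
noncomputable def rho : Matrix (Fin 4) (Fin 4) ℂ :=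
  !![1 / 2, 0, 0, 0; 0, 1 / 2, 0, 0; 0, 0, 0, 0; 0, 0, 0, 0]

/-- `σ = (1/2)(|2⟩⟨2| + |3⟩⟨3|)` -/
noncomputable def sig : Matrix (Fin 4) (Fin 4) ℂ :=
  !![0, 0, 0, 0; 0, 0, 0, 0; 0, 0, 1 / 2, 0; 0, 0, 0, 1 / 2]

lemma HH_transpose (a : ℝ) (m : Fin 2) : (HH a m)ᵀ = HH a m := by
  fin_cases m <;> ext i j <;> fin_cases i <;> fin_cases j <;> simp [HH]

lemma HH_herm (a : ℝ) (m : Fin 2) : (HH a m).IsHermitian := by
  unfold Matrix.IsHermitian
  fin_cases m <;> ext i j <;> fin_cases i <;> fin_cases j <;> simp [HH]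

lemma HH_sq (a : ℝ) : HH a 0 * HH a 0 + HH a 1 * HH a 1 = ((a ^ 2 + 1 : ℝ) : ℂ) • 1 := by
  ext i j
  simp only [Matrix.add_apply, Matrix.mul_apply, Fin.sum_univ_four]
  fin_cases i <;> fin_cases j <;> simp [HH] <;> ring

lemma cost_eq (a : ℝ) {τ : Matrix (Fin 4 × Fin 4) (Fin 4 × Fin 4) ℂ} (hτ : IsState τ) :
    cost (HH a) τ = a ^ 2 + 1 - (((τ * (HH a 0 ⊗ₖ HH a 0)).trace).re +
      ((τ * (HH a 1 ⊗ₖ HH a 1)).trace).re) := by
  have h1 : (τ * ((HH a 0 * HH a 0) ⊗ₖ 1)).trace + (τ * ((HH a 1 * HH a 1) ⊗ₖ 1)).trace =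
      ((a ^ 2 + 1 : ℝ) : ℂ) := by
    rw [← Matrix.trace_add, ← Matrix.mul_add, ← Matrix.add_kronecker, HH_sq, tr_kron_one,
      mul_smul_comm, mul_one, Matrix.trace_smul, trace_red1, hτ.2, smul_eq_mul, mul_one]
  have h2 : (τ * (1 ⊗ₖ (HH a 0 * HH a 0))).trace + (τ * (1 ⊗ₖ (HH a 1 * HH a 1))).trace =
      ((a ^ 2 + 1 : ℝ) : ℂ) := by
    rw [← Matrix.trace_add, ← Matrix.mul_add, ← Matrix.kronecker_add, HH_sq, tr_one_kron,
      mul_smul_comm, mul_one, Matrix.trace_smul, trace_red2, hτ.2, smul_eq_mul, mul_one]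
  have h1' := congrArg Complex.re h1
  have h2' := congrArg Complex.re h2
  rw [Complex.add_re, Complex.ofReal_re] at h1' h2'
  unfold cost
  rw [Fin.sum_univ_two, diffOp_sq, diffOp_sq, HH_transpose, HH_transpose]
  simp only [mul_add, mul_sub, mul_smul_comm, Matrix.trace_add, Matrix.trace_sub,
    Matrix.trace_smul, smul_eq_mul, Complex.add_re, Complex.sub_re, Complex.mul_re,
    Complex.re_ofNat, Complex.im_ofNat, zero_mul, sub_zero]
  linarith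

lemma W_pure_ge {a : ℝ} (ha : 0 ≤ a) {ψ φ : Fin 4 → ℂ} (hψ : star ψ ⬝ᵥ ψ = 1)
    (hφ : star φ ⬝ᵥ φ = 1) (h2 : ψ 2 = 0) (h3 : ψ 3 = 0) (h0 : φ 0 = 0) (h1 : φ 1 = 0) :
    a ^ 2 + 1 - a ≤ W (HH a) (proj ψ) (proj φ) := by
  obtain ⟨hs, hr1, hr2⟩ := prod_state hψ hφ
  refine le_csInf ⟨_, _, hs, hr1, hr2, rfl⟩ ?_
  rintro c ⟨τ, hτ, h1', h2', rfl⟩
  rw [cost_eq a hτ]
  have e : ∀ m, (τ * (HH a m ⊗ₖ HH a m)).trace =
      (star φ ⬝ᵥ HH a m *ᵥ φ) * (star ψ ⬝ᵥ HH a m *ᵥ ψ) := by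
    intro m
    rw [pure_coupling hτ.1 hφ h2', h1']
    congr 1
    have : ((proj ψ)ᵀ * HH a m).trace = (HH a m * proj ψ).trace := by
      nth_rewrite 1 [← HH_transpose a m]
      rw [← Matrix.transpose_mul, Matrix.trace_transpose]
    rw [this]
    unfold proj
    rw [Matrix.mul_vecMulVec, Matrix.trace_vecMulVec, dotProduct_comm]
  rw [e, e]
  simp only [dotProduct, Matrix.mulVec, Fin.sum_univ_four, Pi.star_apply, h2, h3] at hψ ⊢
  simp only [dotProduct, Fin.sum_univ_four, Pi.star_apply, h0, h1] at hφ ⊢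
  have nψ := congrArg Complex.re hψ
  have nφ := congrArg Complex.re hφ
  simp [HH, Complex.mul_re, Complex.mul_im] at nψ nφ ⊢
  set p := (ψ 0).re
  set q := (ψ 0).im
  set r := (ψ 1).re
  set s := (ψ 1).im
  set t := (φ 2).re
  set u := (φ 2).im
  set v := (φ 3).re
  set w := (φ 3).im
  have k1 : (p * p + q * q - r * r - s * s) ^ 2 + (2 * (p * r + q * s)) ^ 2 ≤ 1 := by
    have : (p * p + q * q + (r * r + s * s)) ^ 2 = 1 := by rw [nψ]; norm_num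
    nlinarith [sq_nonneg (p * s - q * r)]
  have k2 : (t * t + u * u - v * v - w * w) ^ 2 + (2 * (t * v + u * w)) ^ 2 ≤ 1 := by
    have : (t * t + u * u + (v * v + w * w)) ^ 2 = 1 := by rw [nφ]; norm_num
    nlinarith [sq_nonneg (t * w - u * v)]
  have k3 : (2 * (t * v + u * w)) * (p * p + q * q - r * r - s * s) +
      (t * t + u * u - v * v - w * w) * (2 * (p * r + q * s)) ≤ 1 := by
    nlinarith [sq_nonneg ((2 * (t * v + u * w)) - (p * p + q * q - r * r - s * s)),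
      sq_nonneg ((t * t + u * u - v * v - w * w) - (2 * (p * r + q * s)))]
  have k4 := mul_le_mul_of_nonneg_left k3 ha
  linarith

/-! ### upper bounds -/

/-- The vector `|0⟩(|2⟩ + |3⟩) + |1⟩(|2⟩ - |3⟩)` (not normalised). -/
def cl : Fin 4 × Fin 4 → ℂ := fun x =>
  (!![0, 0, 1, 1; 0, 0, 1, -1; 0, 0, 0, 0; 0, 0, 0, 0] : Matrix (Fin 4) (Fin 4) ℂ) x.1 x.2

/-- The cluster state. -/
noncomputable def tau : Matrix (Fin 4 × Fin 4) (Fin 4 × Fin 4) ℂ :=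
  ((1 / 4 : ℝ) : ℂ) • vecMulVec cl (star cl)

lemma tau_apply (x y : Fin 4 × Fin 4) : tau x y = 1 / 4 * (cl x * star (cl y)) := by
  simp [tau, Matrix.vecMulVec_apply]

lemma tau_state : IsState tau := by
  constructor
  · exact (Matrix.posSemidef_vecMulVec_self_star _).smul
      (by rw [Complex.zero_le_real]; norm_num)
  · simp only [Matrix.trace, Matrix.diag, Fintype.sum_prod_type, Fin.sum_univ_four, tau_apply, cl]
    simp
    norm_num

lemma tau_red1 : red1 tau = rhoᵀ := by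
  ext i j
  simp only [red1, Fin.sum_univ_four, tau_apply, cl, Matrix.transpose_apply]
  fin_cases i <;> fin_cases j <;> simp [rho] <;> norm_num

lemma tau_red2 : red2 tau = sig := by
  ext i j
  simp only [red2, Fin.sum_univ_four, tau_apply, cl]
  fin_cases i <;> fin_cases j <;> simp [sig] <;> norm_num

lemma tau_tr (A : Matrix (Fin 4) (Fin 4) ℂ) : (tau * (A ⊗ₖ A)).trace =
    1 / 4 * (∑ x : Fin 4 × Fin 4, ∑ y : Fin 4 × Fin 4, cl x * star (cl y) * (A y.1 x.1 * A y.2 x.2)) := by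
  simp only [Matrix.trace, Matrix.diag, Matrix.mul_apply, tau_apply, Matrix.kroneckerMap_apply,
    Finset.mul_sum]
  refine Finset.sum_congr rfl fun x _ => Finset.sum_congr rfl fun y _ => ?_
  ring

lemma tau_cost (a : ℝ) : cost (HH a) tau = (a - 1) ^ 2 := by
  rw [cost_eq a tau_state, tau_tr, tau_tr]
  simp only [Fintype.sum_prod_type, Fin.sum_univ_four, cl]
  simp [HH]
  ring

lemma W_pure_le (a : ℝ) {ψ φ : Fin 4 → ℂ} (hψ : star ψ ⬝ᵥ ψ = 1) (hφ : star φ ⬝ᵥ φ = 1) :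
    W (HH a) (proj ψ) (proj φ) ≤ a ^ 2 + 1 -
      (((star φ ⬝ᵥ HH a 0 *ᵥ φ) * (star ψ ⬝ᵥ HH a 0 *ᵥ ψ)).re +
        ((star φ ⬝ᵥ HH a 1 *ᵥ φ) * (star ψ ⬝ᵥ HH a 1 *ᵥ ψ)).re) := by
  obtain ⟨hs, hr1, hr2⟩ := prod_state hψ hφ
  refine (W_le (HH_herm a) hs hr1 hr2).trans (le_of_eq ?_)
  rw [cost_eq a hs]
  have e : ∀ m, (((proj ψ)ᵀ ⊗ₖ proj φ) * (HH a m ⊗ₖ HH a m)).trace =
      (star φ ⬝ᵥ HH a m *ᵥ φ) * (star ψ ⬝ᵥ HH a m *ᵥ ψ) := by
    intro m
    rw [pure_coupling hs.1 hφ hr2, hr1]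
    congr 1
    have : ((proj ψ)ᵀ * HH a m).trace = (HH a m * proj ψ).trace := by
      nth_rewrite 1 [← HH_transpose a m]
      rw [← Matrix.transpose_mul, Matrix.trace_transpose]
    rw [this]
    unfold proj
    rw [Matrix.mul_vecMulVec, Matrix.trace_vecMulVec, dotProduct_comm]
  rw [e, e]

/-- The basis vectors. -/
def bas (i : Fin 4) : Fin 4 → ℂ := Pi.single i 1

lemma bas_unit (i : Fin 4) : star (bas i) ⬝ᵥ bas i = 1 := by
  simp [bas]

lemma bas_exp (A : Matrix (Fin 4) (Fin 4) ℂ) (i : Fin 4) :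
    star (bas i) ⬝ᵥ A *ᵥ bas i = A i i := by
  simp [bas]

lemma W_bas (a : ℝ) (i : Fin 4) : W (HH a) (proj (bas i)) (proj (bas i)) ≤ 1 := by
  refine (W_pure_le a (bas_unit i) (bas_unit i)).trans (le_of_eq ?_)
  rw [bas_exp, bas_exp]
  fin_cases i <;> simp [HH] <;> ring

lemma proj_bas_apply (i x y : Fin 4) :
    proj (bas i) x y = (if x = i then 1 else 0) * (if y = i then 1 else 0) := by
  simp only [proj, bas, Matrix.vecMulVec_apply, Pi.single_apply, Pi.star_apply]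
  congr 1
  split_ifs <;> simp

lemma rho_dec : ∑ k : Fin 2, (((![1 / 2, 1 / 2] : Fin 2 → ℝ) k : ℝ) : ℂ) •
    proj ((![bas 0, bas 1] : Fin 2 → Fin 4 → ℂ) k) = rho := by
  ext x y
  simp only [Fin.sum_univ_two, Matrix.add_apply, Matrix.smul_apply, Matrix.cons_val_zero,
    Matrix.cons_val_one, proj_bas_apply]
  fin_cases x <;> fin_cases y <;> simp [rho]

lemma sig_dec : ∑ k : Fin 2, (((![1 / 2, 1 / 2] : Fin 2 → ℝ) k : ℝ) : ℂ) •
    proj ((![bas 2, bas 3] : Fin 2 → Fin 4 → ℂ) k) = sig := by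
  ext x y
  simp only [Fin.sum_univ_two, Matrix.add_apply, Matrix.smul_apply, Matrix.cons_val_zero,
    Matrix.cons_val_one, proj_bas_apply]
  fin_cases x <;> fin_cases y <;> simp [sig]

lemma half_pos : ∀ k : Fin 2, 0 < (![1 / 2, 1 / 2] : Fin 2 → ℝ) k := by
  intro k; fin_cases k <;> simp

lemma half_sum : ∑ k : Fin 2, (![1 / 2, 1 / 2] : Fin 2 → ℝ) k = 1 := by
  simp [Fin.sum_univ_two]; norm_num

lemma two_unit (i j : Fin 4) : ∀ k : Fin 2, star ((![bas i, bas j] : Fin 2 → Fin 4 → ℂ) k) ⬝ᵥ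
    (![bas i, bas j] : Fin 2 → Fin 4 → ℂ) k = 1 := by
  intro k
  fin_cases k
  · exact bas_unit i
  · exact bas_unit j

lemma Wsep_rho (a : ℝ) : Wsep (HH a) rho rho ≤ 1 := by
  refine (Wsep_le (HH_herm a) ![1 / 2, 1 / 2] ![bas 0, bas 1] ![bas 0, bas 1] half_pos half_sum
    (two_unit 0 1) (two_unit 0 1) rho_dec rho_dec).trans ?_
  rw [Fin.sum_univ_two]
  have h1 := W_bas a 0
  have h2 := W_bas a 1
  simp only [Matrix.cons_val_zero, Matrix.cons_val_one]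
  linarith

lemma Wsep_sig (a : ℝ) : Wsep (HH a) sig sig ≤ 1 := by
  refine (Wsep_le (HH_herm a) ![1 / 2, 1 / 2] ![bas 2, bas 3] ![bas 2, bas 3] half_pos half_sum
    (two_unit 2 3) (two_unit 2 3) sig_dec sig_dec).trans ?_
  rw [Fin.sum_univ_two]
  have h1 := W_bas a 2
  have h2 := W_bas a 3
  simp only [Matrix.cons_val_zero, Matrix.cons_val_one]
  linarith

lemma supp_zero {K : ℕ} {p : Fin K → ℝ} {ψ : Fin K → Fin 4 → ℂ} (hp : ∀ k, 0 < p k)
    {ρ : Matrix (Fin 4) (Fin 4) ℂ} (h : ∑ k, (p k : ℂ) • proj (ψ k) = ρ) (i : Fin 4)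
    (hi : ρ i i = 0) (k : Fin K) : ψ k i = 0 := by
  have h1 : ∑ k, p k * Complex.normSq (ψ k i) = 0 := by
    have h2 := congrFun (congrFun h i) i
    rw [hi, Matrix.sum_apply] at h2
    have h3 : ((∑ k, p k * Complex.normSq (ψ k i) : ℝ) : ℂ) = 0 := by
      rw [← h2]
      push_cast
      refine Finset.sum_congr rfl fun k _ => ?_
      rw [Matrix.smul_apply, proj, Matrix.vecMulVec_apply, Pi.star_apply, smul_eq_mul,
        Complex.star_def, Complex.mul_conj]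
    exact_mod_cast h3
  have h2 := (Finset.sum_eq_zero_iff_of_nonneg (fun k _ =>
    mul_nonneg (hp k).le (Complex.normSq_nonneg _))).1 h1 k (Finset.mem_univ k)
  rcases mul_eq_zero.1 h2 with h3 | h3
  · exact absurd h3 (hp k).ne'
  · exact Complex.normSq_eq_zero.1 h3

lemma Wsep_ge {a : ℝ} (ha : 0 ≤ a) : a ^ 2 + 1 - a ≤ Wsep (HH a) rho sig := by
  refine le_csInf ⟨_, 2, ![1 / 2, 1 / 2], ![bas 0, bas 1], ![bas 2, bas 3], half_pos, half_sum,
    two_unit 0 1, two_unit 2 3, rho_dec, sig_dec, rfl⟩ ?_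
  rintro c ⟨K, p, ψ, φ, hp, hs, hψ, hφ, h1, h2, rfl⟩
  have h3 : ∀ k, a ^ 2 + 1 - a ≤ W (HH a) (proj (ψ k)) (proj (φ k)) := fun k =>
    W_pure_ge ha (hψ k) (hφ k) (supp_zero hp h1 2 (by simp [rho]) k)
      (supp_zero hp h1 3 (by simp [rho]) k) (supp_zero hp h2 0 (by simp [sig]) k)
      (supp_zero hp h2 1 (by simp [sig]) k)
  calc a ^ 2 + 1 - a = ∑ k, p k * (a ^ 2 + 1 - a) := by rw [← Finset.sum_mul, hs, one_mul]
    _ ≤ _ := Finset.sum_le_sum fun k _ => mul_le_mul_of_nonneg_left (h3 k) (hp k).le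

lemma rho_state : IsState rho := by
  rw [← rho_dec]
  constructor
  · refine Matrix.posSemidef_sum _ fun k _ => (proj_psd _).smul ?_
    rw [Complex.zero_le_real]
    exact (half_pos k).le
  · rw [Fin.sum_univ_two, Matrix.trace_add, Matrix.trace_smul, Matrix.trace_smul,
      proj_trace (two_unit 0 1 0), proj_trace (two_unit 0 1 1)]
    simp
    norm_num

lemma sig_state : IsState sig := by
  rw [← sig_dec]
  constructor
  · refine Matrix.posSemidef_sum _ fun k _ => (proj_psd _).smul ?_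
    rw [Complex.zero_le_real]
    exact (half_pos k).le
  · rw [Fin.sum_univ_two, Matrix.trace_add, Matrix.trace_smul, Matrix.trace_smul,
      proj_trace (two_unit 2 3 0), proj_trace (two_unit 2 3 1)]
    simp
    norm_num

lemma rho_transpose : rhoᵀ = rho := by
  ext i j; fin_cases i <;> fin_cases j <;> simp [rho]

lemma sig_transpose : sigᵀ = sig := by
  ext i j; fin_cases i <;> fin_cases j <;> simp [sig]

theorem main (C : ℝ) (hC : 0 < C) : ∃ (H : Fin 2 → Matrix (Fin 4) (Fin 4) ℂ)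
    (ρ σ : Matrix (Fin 4) (Fin 4) ℂ), (∀ m, (H m).IsHermitian ∧ (H m)ᵀ = H m) ∧
      IsState ρ ∧ IsState σ ∧ ρᵀ = ρ ∧ σᵀ = σ ∧ C * Wmod H ρ σ < Wsepmod H ρ σ := by
  set e : ℝ := 1 / (C + 1) with he
  have he0 : 0 < e := by positivity
  have hCe : C * e < 1 := by
    rw [he, mul_one_div, div_lt_one (by positivity)]
    linarith
  refine ⟨HH (1 + e), rho, sig, fun m => ⟨HH_herm _ m, HH_transpose _ m⟩, rho_state, sig_state,
    rho_transpose, sig_transpose, ?_⟩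
  have h1 : W (HH (1 + e)) rho sig ≤ e ^ 2 := by
    refine (W_le (HH_herm _) tau_state tau_red1 tau_red2).trans (le_of_eq ?_)
    rw [tau_cost]; ring
  have h2 := W_nonneg (HH_herm (1 + e)) rho rho
  have h3 := W_nonneg (HH_herm (1 + e)) sig sig
  have h4 : (1 + e) ^ 2 + 1 - (1 + e) ≤ Wsep (HH (1 + e)) rho sig := Wsep_ge (by positivity)
  have h5 := Wsep_rho (1 + e)
  have h6 := Wsep_sig (1 + e)
  have h7 : Wmod (HH (1 + e)) rho sig ≤ e ^ 2 := by unfold Wmod; linarith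
  have h8 : (1 + e) * e ≤ Wsepmod (HH (1 + e)) rho sig := by unfold Wsepmod; nlinarith
  calc C * Wmod (HH (1 + e)) rho sig ≤ C * e ^ 2 := mul_le_mul_of_nonneg_left h7 hC.le
    _ = (C * e) * e := by ring
    _ < 1 * e := mul_lt_mul_of_pos_right hCe he0
    _ ≤ (1 + e) * e := by nlinarith
    _ ≤ _ := h8

end Pool.Agent.Q206.QW
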